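import Pool.Agent.Helper51.BW.Spec

/-!
# BW, part CND: basic facts on the conductances
-/

open MeasureTheory Filter Topology

namespace Pool.Agent.Helper91.BW

open Pool.Agent.Helper51.BW

variable {d : ℕ}

lemma dir_injective : Function.Injective (dir : D d → V d) := by
  rintro ⟨i, s⟩ ⟨j, t⟩ h
  have hi := congrFun h i
  simp only [dir, Pi.single_eq_same] at hi
  by_cases hij : i = j
  · subst hij
    rw [Pi.single_eq_same] at hi
    cases s <;> cases t <;> simp_all
  · rw [Pi.single_eq_of_ne hij] at hi
    cases s <;> simp at hi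

/-- the opposite direction -/
def opp (e : D d) : D d := (e.1, !e.2)

lemma opp_opp (e : D d) : opp (opp e) = e := by
  rcases e with ⟨i, s⟩
  simp [opp]

lemma dir_opp (e : D d) : dir (opp e) = -dir e := by
  rcases e with ⟨i, s⟩
  unfold dir opp
  rw [← Pi.single_neg]
  cases s <;> simp

lemma ip_add (a : Fin d → ℝ) (z w : V d) : ip a (z + w) = ip a z + ip a w := by
  unfold ip
  rw [← Finset.sum_add_distrib]
  refine Finset.sum_congr rfl fun j _ => ?_
  rw [Pi.add_apply]
  push_cast
  ring

lemma ip_neg (a : Fin d → ℝ) (z : V d) : ip a (-z) = -ip a z := by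
  unfold ip
  rw [← Finset.sum_neg_distrib]
  refine Finset.sum_congr rfl fun j _ => ?_
  rw [Pi.neg_apply]
  push_cast
  ring

lemma ip_sub (a : Fin d → ℝ) (z w : V d) : ip a (z - w) = ip a z - ip a w := by
  rw [sub_eq_add_neg, ip_add, ip_neg, sub_eq_add_neg]

lemma ip_dir (a : Fin d → ℝ) (e : D d) : ip a (dir e) = a e.1 * (if e.2 then 1 else -1) := by
  unfold ip dir
  rw [Finset.sum_eq_single e.1]
  · rw [Pi.single_eq_same]
    split_ifs <;> simp
  · intro j _ hj
    rw [Pi.single_eq_of_ne hj]
    simp
  · intro h
    exact absurd (Finset.mem_univ _) h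

lemma exp_lhat {p : D d → ℝ} (hp : ∀ e, 0 < p e) (e : D d) :
    p (opp e) * Real.exp (ip (lhat p) (dir e)) = p e := by
  rcases e with ⟨j, s⟩
  rw [ip_dir]
  have h1 := hp (j, true)
  have h2 := hp (j, false)
  cases s
  · simp only [opp, lhat, Bool.not_false, Bool.false_eq_true, if_false, mul_neg, mul_one]
    rw [Real.exp_neg, Real.exp_log (div_pos h1 h2)]
    field_simp
  · simp only [opp, lhat, Bool.not_true, if_true, mul_one]
    rw [Real.exp_log (div_pos h1 h2)]
    field_simp

lemma cnd_of_adj {p : D d → ℝ} {G : V d → V d → Prop} {z : V d} {e : D d}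
    (h : G z (z + dir e)) : cnd p G z (z + dir e) = p e * Real.exp (ip (lhat p) z) := by
  classical
  unfold cnd
  rw [Finset.sum_eq_single e]
  · rw [if_pos ⟨rfl, h⟩]
  · intro e' _ he'
    rw [if_neg]
    rintro ⟨h1, _⟩
    exact he' (dir_injective (add_left_cancel h1))
  · intro h
    exact absurd (Finset.mem_univ _) h

lemma cnd_of_not {p : D d → ℝ} {G : V d → V d → Prop} {z z' : V d}
    (h : ¬ G z z') : cnd p G z z' = 0 := by
  classical
  unfold cnd
  refine Finset.sum_eq_zero fun e _ => ?_
  rw [if_neg]
  rintro ⟨_, h1⟩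
  exact h h1

lemma cnd_of_not_nbr {p : D d → ℝ} {G : V d → V d → Prop} {z z' : V d}
    (h : ∀ e, z' ≠ z + dir e) : cnd p G z z' = 0 := by
  classical
  unfold cnd
  refine Finset.sum_eq_zero fun e _ => ?_
  rw [if_neg]
  rintro ⟨h1, _⟩
  exact h e h1.symm

lemma cnd_nonneg {p : D d → ℝ} (hp : ∀ e, 0 < p e) (G : V d → V d → Prop) (z z' : V d) :
    0 ≤ cnd p G z z' := by
  classical
  unfold cnd
  refine Finset.sum_nonneg fun e _ => ?_
  split_ifs
  · exact mul_nonneg (hp e).le (Real.exp_pos _).le
  · exact le_rfl

lemma cnd_symm {p : D d → ℝ} (hp : ∀ e, 0 < p e) {G : V d → V d → Prop}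
    (hG : ∀ x y, G x y → G y x) (z z' : V d) : cnd p G z z' = cnd p G z' z := by
  by_cases h : ∃ e, z' = z + dir e
  · obtain ⟨e, rfl⟩ := h
    by_cases hadj : G z (z + dir e)
    · rw [cnd_of_adj hadj]
      have h1 : z = (z + dir e) + dir (opp e) := by rw [dir_opp]; abel
      have h2 : G (z + dir e) ((z + dir e) + dir (opp e)) := by
        rw [← h1]
        exact hG _ _ hadj
      have h3 := cnd_of_adj (p := p) h2
      rw [← h1] at h3
      rw [h3, ip_add, Real.exp_add, ← exp_lhat hp e]
      ring
    · rw [cnd_of_not hadj, cnd_of_not (fun h => hadj (hG _ _ h))]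
  · push Not at h
    rw [cnd_of_not_nbr h, cnd_of_not_nbr]
    intro e he
    apply h (opp e)
    rw [he, dir_opp]
    abel

theorem CND : S_CND := by
  classical
  intro d p G pm hpm hp hsum hG
  have hpos : ∀ e, 0 < p e := fun e => lt_of_lt_of_le hpm (hp e)
  have hZ : ∀ z, ∑ e', cnd p G z (z + dir e') =
      (∑ e', (if G z (z + dir e') then p e' else 0)) * Real.exp (ip (lhat p) z) := by
    intro z
    rw [Finset.sum_mul]
    refine Finset.sum_congr rfl fun e _ => ?_
    by_cases h : G z (z + dir e)
    · rw [cnd_of_adj h, if_pos h]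
    · rw [cnd_of_not h, if_neg h, zero_mul]
  have hSpos : ∀ z e, G z (z + dir e) →
      p e ≤ ∑ e', (if G z (z + dir e') then p e' else 0) := by
    intro z e h
    have h1 : (if G z (z + dir e) then p e else 0) ≤
        ∑ e', (if G z (z + dir e') then p e' else 0) :=
      Finset.single_le_sum (f := fun e' => if G z (z + dir e') then p e' else 0)
        (fun e' _ => by
          beta_reduce
          split_ifs
          · exact (hpos e').le
          · exact le_rfl) (Finset.mem_univ e)
    rwa [if_pos h] at h1
  have hT0 : ∀ z e, 0 ≤ trans p G z e := by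
    intro z e
    unfold Pool.Agent.Helper51.BW.trans
    split_ifs with h
    · exact div_nonneg (hpos e).le ((hpos e).le.trans (by convert hSpos z e h))
    · exact le_rfl
  refine ⟨cnd_nonneg hpos G, cnd_symm hpos hG, fun z e h => cnd_of_adj h,
    fun z e h => cnd_of_not h, fun z z' h => cnd_of_not_nbr h, ?_, ?_, ?_, ?_, hT0, ?_⟩
  · intro U z
    unfold cnd
    rw [Finset.sum_comm]
    calc ∑ e, ∑ z' ∈ U, (if z + dir e = z' ∧ G z z' then p e * Real.exp (ip (lhat p) z) else 0)
        ≤ ∑ e, p e * Real.exp (ip (lhat p) z) := by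
          refine Finset.sum_le_sum fun e _ => ?_
          have h0 : 0 ≤ p e * Real.exp (ip (lhat p) z) :=
            mul_nonneg (hpos e).le (Real.exp_pos _).le
          by_cases hU : z + dir e ∈ U
          · rw [Finset.sum_eq_single (z + dir e)]
            · split_ifs
              · exact le_rfl
              · exact h0
            · intro b _ hb
              rw [if_neg]
              rintro ⟨h1, _⟩
              exact hb h1.symm
            · intro h
              exact absurd hU h
          · rw [Finset.sum_eq_zero]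
            · exact h0
            · intro b hb
              rw [if_neg]
              rintro ⟨h1, _⟩
              exact hU (h1 ▸ hb)
      _ = Real.exp (ip (lhat p) z) := by rw [← Finset.sum_mul, hsum, one_mul]
  · intro z e
    by_cases h : G z (z + dir e)
    · rw [hZ, cnd_of_adj h]
      unfold Pool.Agent.Helper51.BW.trans
      rw [if_pos h]
      have h1 : 0 < ∑ e', (if G z (z + dir e') then p e' else 0) :=
        lt_of_lt_of_le (hpos e) (hSpos z e h)
      have h2 : p e / (∑ e', (if G z (z + dir e') then p e' else 0)) *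
          ((∑ e', (if G z (z + dir e') then p e' else 0)) * Real.exp (ip (lhat p) z)) =
          p e * Real.exp (ip (lhat p) z) := by
        rw [← mul_assoc, div_mul_cancel₀ _ h1.ne']
      convert h2 using 3
    · rw [cnd_of_not h]
      unfold Pool.Agent.Helper51.BW.trans
      rw [if_neg h, zero_mul]
  · intro z e h
    rw [hZ]
    exact mul_le_mul_of_nonneg_right ((hp e).trans (hSpos z e h)) (Real.exp_pos _).le
  · intro z h e
    unfold Pool.Agent.Helper51.BW.trans
    rw [if_neg (h e)]
  · intro z
    by_cases h : ∃ e, G z (z + dir e)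
    · obtain ⟨e0, h0⟩ := h
      have h1 : 0 < ∑ e', (if G z (z + dir e') then p e' else 0) :=
        lt_of_lt_of_le (hpos e0) (hSpos z e0 h0)
      have h2 : ∑ e, trans p G z e = (∑ e, (if G z (z + dir e) then p e else 0)) /
          (∑ e', (if G z (z + dir e') then p e' else 0)) := by
        rw [Finset.sum_div]
        refine Finset.sum_congr rfl fun e _ => ?_
        unfold Pool.Agent.Helper51.BW.trans
        by_cases h : G z (z + dir e)
        · rw [if_pos h, if_pos h]
        · rw [if_neg h, if_neg h, zero_div]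
      rw [h2, div_self h1.ne']
    · push Not at h
      have h2 : ∑ e, trans p G z e = 0 := Finset.sum_eq_zero fun e _ => by
        unfold Pool.Agent.Helper51.BW.trans
        rw [if_neg (h e)]
      rw [h2]
      exact zero_le_one

end Pool.Agent.Helper91.BW

namespace Pool.Agent.Helper91.BW.CND

theorem main : Pool.Agent.Helper51.BW.S_CND := Pool.Agent.Helper91.BW.CND

end Pool.Agent.Helper91.BW.CND
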