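import Pool.Agent.Helper91.BW.STG

/-!
# BW, part STG1
-/

open MeasureTheory Filter Topology

namespace Pool.Agent.Helper91.BW

open Pool.Agent.Helper51.BW

variable {d : ℕ}

lemma En_ind {α : Type} [DecidableEq α] {U A B : Finset α} {c : α → α → ℝ}
    (hs : ∀ z z', c z z' = c z' z) (hc : ∀ z z', 0 ≤ c z z') {E : α → ℝ} (hBU : B ⊆ U)
    (hdeg : ∀ z, ∑ z' ∈ U, c z z' ≤ E z)
    (hAB : ∀ z ∈ U, ∀ z' ∈ U, c z z' ≠ 0 → z ∈ A → z' ∉ A → z ∈ B) :
    En U c (fun z => if z ∈ A then 1 else 0) ≤ ∑ z ∈ B, E z := by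
  refine (En_le hs hc _ (fun z => if z ∈ B then 1 else 0) ?_).trans ?_
  · intro z hz z' hz' h0
    by_cases h1 : z ∈ A <;> by_cases h2 : z' ∈ A
    · rw [if_pos h1, if_pos h2]
      split_ifs <;> norm_num
    · rw [if_pos h1, if_neg h2, if_pos (hAB z hz z' hz' h0 h1 h2)]
      split_ifs <;> norm_num
    · rw [if_neg h1, if_pos h2, if_pos (hAB z' hz' z hz (by rw [hs]; exact h0) h2 h1)]
      split_ifs <;> norm_num
    · rw [if_neg h1, if_neg h2]
      split_ifs <;> norm_num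
  · simp_rw [ite_mul, one_mul, zero_mul]
    rw [← Finset.sum_filter]
    have h1 : U.filter (fun z => z ∈ B) = B := by
      ext z
      rw [Finset.mem_filter]
      exact ⟨fun h => h.2, fun h => ⟨hBU h, h⟩⟩
    rw [h1]
    exact Finset.sum_le_sum fun z _ => hdeg z

theorem STG1 (hNET : S_NET) (hPTH : S_PTH) : S_STG1 := by
  intro d p pm Γ S G a b x K B hpm hp hsum hS hGT hG hab ha hb hB hSb hK hdis hSaK hxK hR hgap
  classical
  obtain ⟨c1, c2, c3, c4, c5, c6, -⟩ := CND d p G pm hpm hp hsum hG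
  set U := UU S a b with hU
  have hBU : B ⊆ U := fun z hz => by
    obtain ⟨t, h1, h2, h3⟩ := hB z hz
    exact mem_UU.2 ⟨t, h1.le, h2, h3⟩
  have hKU : K ⊆ U := fun z hz => mem_UU.2 (hK z hz)
  have hxB : x ∉ B := Finset.disjoint_left.1 hdis hxK
  obtain ⟨q0, hq01, hq0x, hq0B, hharm, hmin⟩ :=
    hNET (V d) U B (cnd p G) x c2 c1 (hKU hxK) hBU hxB
  have hq01' : ∀ z, 0 ≤ qx U q0 (S a) z ∧ qx U q0 (S a) z ≤ 1 := by
    intro z
    unfold qx
    split_ifs
    · exact hq01 z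
    · exact hq01 _
  refine ⟨qx U q0 (S a), hq01', ?_, ?_, ?_, ?_⟩
  · intro z hz
    rw [qx_mem (hBU hz)]
    exact hq0B z hz
  · rw [qx_mem (hKU hxK)]
    exact hq0x
  · intro t ht htB htx
    have hstay : ∀ y, G (S t) y → ∃ r ≤ b, S r = y := by
      intro y hy
      obtain ⟨s, hs⟩ := trace_mem (hGT _ _ hy)
      by_contra hcon
      push Not at hcon
      have hsb : b < s := by
        by_contra h
        exact hcon s (not_lt.1 h) hs
      have h1 := cute hb (hGT _ _ hy) ⟨t, ht, rfl⟩ ⟨s, hsb, hs⟩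
      apply htB
      rw [h1.1]
      exact hSb
    by_cases hUt : S t ∈ U
    · refine superh_in hpm hp hsum hG (U := U) (hq01' _).1 ?_ ?_
      · intro e he
        rcases star ha q0 ⟨t, ht, rfl⟩ (hstay _ he) (hGT _ _ he) with h | h
        · exact Or.inl h.2
        · exact Or.inr h
      · rw [← hharm (S t) hUt htx htB]
        refine Finset.sum_congr rfl fun y hy => ?_
        rw [qx_mem hy, qx_mem hUt]
    · refine superh_out hpm hp hsum hG (hq01' _).1 ?_
      intro e he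
      rcases star ha q0 ⟨t, ht, rfl⟩ (hstay _ he) (hGT _ _ he) with h | h
      · exact absurd h.1 hUt
      · exact h
  · have h0 : qx U q0 (S a) (S 0) = q0 (S a) := qx_past ha (Nat.zero_le a)
    rw [hS.1] at h0
    rw [h0]
    have hL : (1 : ℝ) ≤ (b : ℝ) - a + 1 := by
      have : (a : ℝ) < b := by exact_mod_cast hab
      linarith
    refine pth_bound hPTH hpm hp hsum hG hS hGT hKU hSaK hq0x hR hgap ?_ hL
      (card_le (S := S) hab.le hK) (card_le (S := S) hab.le fun z hz => ?_)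
    · refine (hmin (fun z => if z ∈ B then 1 else 0) (if_neg hxB) fun z hz => if_pos hz).trans ?_
      exact En_ind c2 c1 hBU (c6 U) fun z _ z' _ _ h _ => h
    · obtain ⟨t, h1, h2, h3⟩ := hB z hz
      exact ⟨t, h1.le, h2, h3⟩

end Pool.Agent.Helper91.BW

namespace Pool.Agent.Helper91.BW.STG1

open Pool.Agent.Helper51.BW in
theorem main (hNET : S_NET) (hPTH : S_PTH) : S_STG1 := Pool.Agent.Helper91.BW.STG1 hNET hPTH

end Pool.Agent.Helper91.BW.STG1
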