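import Pool.Agent.Helper91.BW.STG1

/-!
# BW, parts STG2a and STG2b
-/

open MeasureTheory Filter Topology

namespace Pool.Agent.Helper91.BW

open Pool.Agent.Helper51.BW

variable {d : ℕ}

/-- the test function of the bridges -/
noncomputable def tf (S : ℕ → V d) (bM : ℕ) (bs : Finset ℕ) (w : ℕ → ℝ) (z : V d) : ℝ :=
  ∑ b ∈ bs, if z ∈ UU S (b + 1) (bM + 1) then w b else 0

lemma tf_key {S : ℕ → V d} {a bM : ℕ} {bs : Finset ℕ} {w : ℕ → ℝ}
    (hbs : ∀ b ∈ bs, b ≤ bM ∧ IsCut S b) {z z' : V d} (hz : z ∈ UU S a (bM + 1))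
    (hT : Trace S z z') {b0 : ℕ} (hb0 : b0 ∈ bs) (h1 : z' ∈ UU S (b0 + 1) (bM + 1))
    (h2 : z ∉ UU S (b0 + 1) (bM + 1)) :
    z = S b0 ∧ tf S bM bs w z' - tf S bM bs w z = w b0 := by
  obtain ⟨t, ht1, ht2, htz⟩ := mem_UU.1 hz
  have htb : t ≤ b0 := by
    by_contra h
    exact h2 (mem_UU.2 ⟨t, by omega, ht2, htz⟩)
  obtain ⟨r, hr1, hr2, hrz⟩ := mem_UU.1 h1
  have h3 := cute (hbs b0 hb0).2 hT ⟨t, htb, htz⟩ ⟨r, by omega, hrz⟩
  refine ⟨h3.1, ?_⟩
  unfold tf
  rw [← Finset.sum_sub_distrib, Finset.sum_eq_single b0]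
  · rw [if_pos h1, if_neg h2, sub_zero]
  · intro b hb hne
    rcases lt_or_gt_of_ne hne with h | h
    · rw [if_pos, if_pos, sub_self]
      · rw [mem_UU]
        exact ⟨b0, by omega, by have := (hbs b0 hb0).1; omega, h3.1.symm⟩
      · rw [mem_UU]
        exact ⟨r, by omega, hr2, hrz⟩
    · have hcut := (hbs b hb).2
      rw [if_neg, if_neg, sub_self]
      · intro hmem
        obtain ⟨r', hr1', _, hr'⟩ := mem_UU.1 hmem
        rw [h3.1] at hr'
        exact hcut b0 r' (by omega) (by omega) hr'.symm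
      · intro hmem
        obtain ⟨r', hr1', _, hr'⟩ := mem_UU.1 hmem
        rw [h3.2] at hr'
        exact hcut (b0 + 1) r' (by omega) (by omega) hr'.symm
  · intro h
    exact absurd hb0 h

lemma tf_sq {S : ℕ → V d} {a bM : ℕ} {bs : Finset ℕ} {w : ℕ → ℝ}
    (hbs : ∀ b ∈ bs, b ≤ bM ∧ IsCut S b) {z z' : V d} (hz : z ∈ UU S a (bM + 1))
    (hz' : z' ∈ UU S a (bM + 1)) (hT : Trace S z z') :
    (tf S bM bs w z' - tf S bM bs w z) ^ 2 ≤
      (∑ b ∈ bs, if z = S b then w b ^ 2 else 0) + ∑ b ∈ bs, if z' = S b then w b ^ 2 else 0 := by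
  classical
  have hnn : ∀ y : V d, 0 ≤ ∑ b ∈ bs, (if y = S b then w b ^ 2 else 0) := by
    intro y
    refine Finset.sum_nonneg fun b _ => ?_
    split_ifs
    · exact sq_nonneg _
    · exact le_rfl
  have hle : ∀ (y : V d) (b0 : ℕ), b0 ∈ bs → y = S b0 →
      w b0 ^ 2 ≤ ∑ b ∈ bs, (if y = S b then w b ^ 2 else 0) := by
    intro y b0 hb0 hy
    have h1 := Finset.single_le_sum (f := fun b => if y = S b then w b ^ 2 else 0)
      (fun b _ => by
        split_ifs
        · exact sq_nonneg _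
        · exact le_rfl) hb0
    rwa [if_pos hy] at h1
  by_cases h1 : ∃ b0 ∈ bs, z' ∈ UU S (b0 + 1) (bM + 1) ∧ z ∉ UU S (b0 + 1) (bM + 1)
  · obtain ⟨b0, hb0, hm, hn⟩ := h1
    obtain ⟨h2, h3⟩ := tf_key (w := w) hbs hz hT hb0 hm hn
    rw [h3]
    have h4 := hle z b0 hb0 h2
    have h5 := hnn z'
    linarith
  · by_cases h2 : ∃ b0 ∈ bs, z ∈ UU S (b0 + 1) (bM + 1) ∧ z' ∉ UU S (b0 + 1) (bM + 1)
    · obtain ⟨b0, hb0, hm, hn⟩ := h2
      obtain ⟨h2, h3⟩ := tf_key (w := w) hbs hz' (trace_symm hT) hb0 hm hn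
      have h4 := hle z' b0 hb0 h2
      have h5 := hnn z
      have h6 : (tf S bM bs w z' - tf S bM bs w z) ^ 2 = w b0 ^ 2 := by
        rw [← h3]
        ring
      rw [h6]
      linarith
    · push Not at h1 h2
      have h3 : tf S bM bs w z' = tf S bM bs w z := by
        unfold tf
        refine Finset.sum_congr rfl fun b hb => ?_
        by_cases h : z ∈ UU S (b + 1) (bM + 1)
        · rw [if_pos h, if_pos (h2 b hb h)]
        · rw [if_neg h, if_neg (fun h' => h (h1 b hb h'))]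
      rw [h3, sub_self]
      have h4 := hnn z
      have h5 := hnn z'
      simp only [ne_eq, OfNat.ofNat_ne_zero, not_false_eq_true, zero_pow]
      linarith

lemma En_bridge {p : D d → ℝ} {G : V d → V d → Prop} {pm : ℝ} (hpm : 0 < pm)
    (hp : ∀ e, pm ≤ p e) (hsum : ∑ e, p e = 1) (hG : ∀ x y, G x y → G y x)
    {S : ℕ → V d} (hGT : ∀ x y, G x y → Trace S x y) {a bM : ℕ} {bs : Finset ℕ}
    (hbs : ∀ b ∈ bs, b ≤ bM ∧ IsCut S b)
    (hR : 0 < ∑ b ∈ bs, Real.exp (-ip (lhat p) (S b))) :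
    En (UU S a (bM + 1)) (cnd p G) (tf S bM bs fun b => Real.exp (-ip (lhat p) (S b)) /
      ∑ b ∈ bs, Real.exp (-ip (lhat p) (S b))) ≤
      1 / ∑ b ∈ bs, Real.exp (-ip (lhat p) (S b)) := by
  classical
  obtain ⟨c1, c2, c3, c4, c5, c6, -⟩ := CND d p G pm hpm hp hsum hG
  set R := ∑ b ∈ bs, Real.exp (-ip (lhat p) (S b)) with hRdef
  set U := UU S a (bM + 1) with hU
  refine (En_le c2 c1 _ (fun z => ∑ b ∈ bs, if z = S b then
    (Real.exp (-ip (lhat p) (S b)) / R) ^ 2 else 0) ?_).trans ?_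
  · intro z hz z' hz' h0
    have hadj : G z z' := by
      by_contra h
      exact h0 (cnd_of_not h)
    exact tf_sq hbs hz hz' (hGT _ _ hadj)
  · calc ∑ z ∈ U, (∑ b ∈ bs, if z = S b then (Real.exp (-ip (lhat p) (S b)) / R) ^ 2 else 0) *
          ∑ z' ∈ U, cnd p G z z'
        ≤ ∑ z ∈ U, (∑ b ∈ bs, if z = S b then (Real.exp (-ip (lhat p) (S b)) / R) ^ 2 else 0) *
          Real.exp (ip (lhat p) z) := by
          refine Finset.sum_le_sum fun z _ => mul_le_mul_of_nonneg_left (c6 U z) ?_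
          refine Finset.sum_nonneg fun b _ => ?_
          split_ifs
          · exact sq_nonneg _
          · exact le_rfl
      _ = ∑ b ∈ bs, ∑ z ∈ U, (if z = S b then (Real.exp (-ip (lhat p) (S b)) / R) ^ 2 else 0) *
          Real.exp (ip (lhat p) z) := by
          rw [Finset.sum_comm]
          refine Finset.sum_congr rfl fun z _ => ?_
          rw [Finset.sum_mul]
      _ ≤ ∑ b ∈ bs, Real.exp (-ip (lhat p) (S b)) / R ^ 2 := by
          refine Finset.sum_le_sum fun b _ => ?_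
          have h1 : (Real.exp (-ip (lhat p) (S b)) / R) ^ 2 * Real.exp (ip (lhat p) (S b)) =
              Real.exp (-ip (lhat p) (S b)) / R ^ 2 := by
            rw [div_pow, pow_two (Real.exp _), div_mul_eq_mul_div, mul_assoc, ← Real.exp_add,
              neg_add_cancel, Real.exp_zero, mul_one]
          have h2 : 0 ≤ Real.exp (-ip (lhat p) (S b)) / R ^ 2 :=
            div_nonneg (Real.exp_pos _).le (sq_nonneg _)
          by_cases hSb : S b ∈ U
          · rw [Finset.sum_eq_single (S b)]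
            · rw [if_pos rfl, h1]
            · intro z _ hne
              rw [if_neg hne, zero_mul]
            · intro h
              exact absurd hSb h
          · rw [Finset.sum_eq_zero]
            · exact h2
            · intro z hz
              rw [if_neg, zero_mul]
              rintro rfl
              exact hSb hz
      _ = 1 / R := by
          rw [← Finset.sum_div, ← hRdef]
          field_simp

/-- the common part of the two certificates of the last walk -/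
lemma core2 (hNET : S_NET) (hFLX : S_FLX) {p : D d → ℝ} {pm : ℝ} {S : ℕ → V d}
    {G : V d → V d → Prop} {a j bM : ℕ} {bs : Finset ℕ} (hpm : 0 < pm) (hp : ∀ e, pm ≤ p e)
    (hsum : ∑ e, p e = 1) (hS : PathHyp S) (hGT : ∀ x y, G x y → Trace S x y)
    (hG : ∀ x y, G x y → G y x) (haj : a ≤ j) (ha : IsCut S a) (hbM : bM ∈ bs)
    (hbs : ∀ b ∈ bs, j < b ∧ b ≤ bM ∧ IsCut S b) :
    ∃ (q0 : V d → ℝ) (ρ : ℝ), 0 ≤ ρ ∧ (∀ z, 0 ≤ q0 z ∧ q0 z ≤ 1) ∧ q0 (S j) = 0 ∧
      q0 (S (bM + 1)) = 1 ∧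
      (∀ t ≤ bM, S t ≠ S j → ∑ e, Pool.Agent.Helper51.BW.trans p G (S t) e *
        qx (UU S a (bM + 1)) q0 (S a) (S t + dir e) ≤ qx (UU S a (bM + 1)) q0 (S a) (S t)) ∧
      ∑ e, Pool.Agent.Helper51.BW.trans p G (S j) e *
        qx (UU S a (bM + 1)) q0 (S a) (S j + dir e) ≤ ρ ∧
      ρ * (pm * ∑ b ∈ bs, Real.exp (ip (lhat p) (S j - S b))) ≤ 1 ∧
      (∀ f : V d → ℝ, f (S j) = 0 → f (S (bM + 1)) = 1 →
        En (UU S a (bM + 1)) (cnd p G) q0 ≤ En (UU S a (bM + 1)) (cnd p G) f) := by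
  classical
  obtain ⟨c1, c2, c3, c4, c5, c6, c7, c8, c9, c10, c11⟩ := CND d p G pm hpm hp hsum hG
  obtain ⟨hjM, -, hcutM⟩ := hbs bM hbM
  set U := UU S a (bM + 1) with hU
  have hjU : S j ∈ U := mem_UU.2 ⟨j, haj, by omega, rfl⟩
  have hMU : S (bM + 1) ∈ U := mem_UU.2 ⟨bM + 1, by omega, le_rfl, rfl⟩
  have hne : S j ≠ S (bM + 1) := hcutM j (bM + 1) hjM.le (by omega)
  have htgt : ({S (bM + 1)} : Finset (V d)) ⊆ U := by
    intro z hz
    rw [Finset.mem_singleton] at hz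
    rw [hz]
    exact hMU
  have hjt : S j ∉ ({S (bM + 1)} : Finset (V d)) := by
    rw [Finset.mem_singleton]
    exact hne
  obtain ⟨q0, hq01, hq0x, hq0B, hharm, hmin⟩ :=
    hNET (V d) U {S (bM + 1)} (cnd p G) (S j) c2 c1 hjU htgt hjt
  have hflx := hFLX (V d) U {S (bM + 1)} (cnd p G) (S j) q0 c2 hjU htgt hjt hq0x hq0B hharm
  have hq1 : q0 (S (bM + 1)) = 1 := hq0B _ (Finset.mem_singleton_self _)
  have hq01' : ∀ z, 0 ≤ qx U q0 (S a) z ∧ qx U q0 (S a) z ≤ 1 := by
    intro z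
    unfold qx
    split_ifs
    · exact hq01 z
    · exact hq01 _
  have hmin' : ∀ f : V d → ℝ, f (S j) = 0 → f (S (bM + 1)) = 1 →
      En U (cnd p G) q0 ≤ En U (cnd p G) f := by
    intro f h1 h2
    refine hmin f h1 fun z hz => ?_
    rw [Finset.mem_singleton] at hz
    rw [hz]
    exact h2
  have hstay : ∀ t ≤ bM, ∀ y, G (S t) y → ∃ r ≤ bM + 1, S r = y := by
    intro t ht y hy
    obtain ⟨s, hs⟩ := trace_mem (hGT _ _ hy)
    rcases le_or_gt s bM with h | h
    · exact ⟨s, by omega, hs⟩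
    · have h1 := cute hcutM (hGT _ _ hy) ⟨t, ht, rfl⟩ ⟨s, h, hs⟩
      exact ⟨bM + 1, le_rfl, h1.2.symm⟩
  -- the set of indices is not empty, so `R > 0`
  set R := ∑ b ∈ bs, Real.exp (-ip (lhat p) (S b)) with hRdef
  have hR : 0 < R := Finset.sum_pos (fun b _ => Real.exp_pos _) ⟨bM, hbM⟩
  have hEnR : En U (cnd p G) q0 ≤ 1 / R := by
    refine (hmin' (tf S bM bs fun b => Real.exp (-ip (lhat p) (S b)) / R) ?_ ?_).trans
      (En_bridge hpm hp hsum hG hGT (fun b hb => ⟨(hbs b hb).2.1, (hbs b hb).2.2⟩) hR)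
    · unfold tf
      refine Finset.sum_eq_zero fun b hb => ?_
      rw [if_neg]
      intro hmem
      obtain ⟨r, hr1, _, hr⟩ := mem_UU.1 hmem
      exact (hbs b hb).2.2 j r (hbs b hb).1.le (by omega) hr.symm
    · unfold tf
      have h1 : ∀ b ∈ bs, (if S (bM + 1) ∈ UU S (b + 1) (bM + 1) then
          Real.exp (-ip (lhat p) (S b)) / R else 0) = Real.exp (-ip (lhat p) (S b)) / R := by
        intro b hb
        rw [if_pos]
        rw [mem_UU]
        have := (hbs b hb).2.1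
        exact ⟨bM + 1, by omega, le_rfl, rfl⟩
      rw [Finset.sum_congr rfl h1, ← Finset.sum_div, ← hRdef, div_self hR.ne']
  have hEn0 : 0 ≤ En U (cnd p G) q0 := by
    unfold En
    refine div_nonneg (Finset.sum_nonneg fun z _ => Finset.sum_nonneg fun z' _ =>
      mul_nonneg (c1 _ _) (sq_nonneg _)) (by norm_num)
  have hsup : ∀ t ≤ bM, S t ≠ S j → ∑ e, Pool.Agent.Helper51.BW.trans p G (S t) e *
        qx U q0 (S a) (S t + dir e) ≤ qx U q0 (S a) (S t) := by
    intro t ht htj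
    by_cases hUt : S t ∈ U
    · refine superh_in hpm hp hsum hG (U := U) (hq01' _).1 ?_ ?_
      · intro e he
        rcases star ha q0 ⟨t, by omega, rfl⟩ (hstay t ht _ he) (hGT _ _ he) with h | h
        · exact Or.inl h.2
        · exact Or.inr h
      · have htB : S t ∉ ({S (bM + 1)} : Finset (V d)) := by
          rw [Finset.mem_singleton]
          exact hcutM t (bM + 1) ht (by omega)
        rw [← hharm (S t) hUt htj htB]
        refine Finset.sum_congr rfl fun y hy => ?_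
        rw [qx_mem hy, qx_mem hUt]
    · refine superh_out hpm hp hsum hG (hq01' _).1 ?_
      intro e he
      rcases star ha q0 ⟨t, by omega, rfl⟩ (hstay t ht _ he) (hGT _ _ he) with h | h
      · exact absurd h.1 hUt
      · exact h
  have hqj : qx U q0 (S a) (S j) = 0 := by rw [qx_mem hjU, hq0x]
  by_cases hex : ∃ e, G (S j) (S j + dir e)
  · obtain ⟨e0, he0⟩ := hex
    have hZ1 := c8 (S j) e0 he0
    have hZ : 0 < ∑ e', cnd p G (S j) (S j + dir e') :=
      lt_of_lt_of_le (mul_pos hpm (Real.exp_pos _)) hZ1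
    refine ⟨q0, En U (cnd p G) q0 / ∑ e', cnd p G (S j) (S j + dir e'),
      div_nonneg hEn0 hZ.le, hq01, hq0x, hq1, hsup, ?_, ?_, hmin'⟩
    · have h1 := flow_eq hpm hp hsum hG (U := U) (q := qx U q0 (S a)) (z := S j) 0 (by
        intro e he
        rcases star ha q0 ⟨j, by omega, rfl⟩ (hstay j hjM.le _ he) (hGT _ _ he) with h | h
        · exact Or.inl h.2
        · right
          exact h.trans hqj)
      simp only [sub_zero] at h1
      have h2 : ∑ y ∈ U, cnd p G (S j) y * qx U q0 (S a) y = En U (cnd p G) q0 := by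
        rw [← hflx]
        refine Finset.sum_congr rfl fun y hy => ?_
        rw [qx_mem hy]
      rw [h2] at h1
      rw [le_div_iff₀ hZ, mul_comm]
      exact h1.le
    · have h1 : ∑ b ∈ bs, Real.exp (ip (lhat p) (S j - S b)) =
          Real.exp (ip (lhat p) (S j)) * R := by
        rw [hRdef, Finset.mul_sum]
        refine Finset.sum_congr rfl fun b _ => ?_
        rw [ip_sub, sub_eq_add_neg, Real.exp_add]
      rw [h1]
      have h2 : pm * (Real.exp (ip (lhat p) (S j)) * R) ≤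
          (∑ e', cnd p G (S j) (S j + dir e')) * R := by
        rw [← mul_assoc]
        exact mul_le_mul_of_nonneg_right hZ1 hR.le
      calc En U (cnd p G) q0 / (∑ e', cnd p G (S j) (S j + dir e')) *
            (pm * (Real.exp (ip (lhat p) (S j)) * R))
          ≤ En U (cnd p G) q0 / (∑ e', cnd p G (S j) (S j + dir e')) *
            ((∑ e', cnd p G (S j) (S j + dir e')) * R) :=
            mul_le_mul_of_nonneg_left h2 (div_nonneg hEn0 hZ.le)
        _ = En U (cnd p G) q0 * R := by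
            rw [← mul_assoc, div_mul_cancel₀ _ hZ.ne']
        _ ≤ 1 / R * R := mul_le_mul_of_nonneg_right hEnR hR.le
        _ = 1 := by rw [one_div, inv_mul_cancel₀ hR.ne']
  · push Not at hex
    refine ⟨q0, 0, le_rfl, hq01, hq0x, hq1, hsup, ?_, by rw [zero_mul]; exact zero_le_one, hmin'⟩
    refine le_of_eq (Finset.sum_eq_zero fun e _ => ?_)
    rw [c9 (S j) hex e, zero_mul]

theorem STG2a (hNET : S_NET) (hFLX : S_FLX) : S_STG2a := by
  intro d p pm S G j bM bs hpm hp hsum hS hGT hG hcj hbM hbs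
  classical
  obtain ⟨q0, ρ, hρ, hq01, hqj, hqM, hsup, hflow, hbd, -⟩ :=
    core2 hNET hFLX hpm hp hsum hS hGT hG (le_refl j) hcj hbM hbs
  obtain ⟨hjM, -, -⟩ := hbs bM hbM
  have hjU : S j ∈ UU S j (bM + 1) := mem_UU.2 ⟨j, le_rfl, by omega, rfl⟩
  have hMU : S (bM + 1) ∈ UU S j (bM + 1) := mem_UU.2 ⟨bM + 1, by omega, le_rfl, rfl⟩
  refine ⟨qx (UU S j (bM + 1)) q0 (S j), ρ, hρ, ?_, ?_, ?_, ?_, hsup, hflow, hbd⟩
  · intro z
    unfold qx
    split_ifs
    · exact hq01 z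
    · exact hq01 _
  · rw [qx_mem hMU, hqM]
  · rw [qx_mem hjU, hqj]
  · have h0 : qx (UU S j (bM + 1)) q0 (S j) (S 0) = q0 (S j) := qx_past hcj (Nat.zero_le j)
    rw [hS.1] at h0
    rw [h0, hqj]

theorem STG2b (hNET : S_NET) (hFLX : S_FLX) (hPTH : S_PTH) : S_STG2b := by
  intro d p pm Γ S G a j b1 bM bs K B hpm hp hsum hS hGT hG haj ha hb1 hbM hbs hB hSb1 hK hdis
    hSaK hSjK hR hgap
  classical
  obtain ⟨c1, c2, c3, c4, c5, c6, -⟩ := CND d p G pm hpm hp hsum hG
  obtain ⟨q0, ρ, hρ, hq01, hqj, hqM, hsup, hflow, hbd, hmin⟩ :=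
    core2 hNET hFLX hpm hp hsum hS hGT hG haj.le ha hbM hbs
  obtain ⟨hjM, -, -⟩ := hbs bM hbM
  obtain ⟨hjb1, hb1M, hcut1⟩ := hbs b1 hb1
  set U := UU S a (bM + 1) with hU
  have hjU : S j ∈ U := mem_UU.2 ⟨j, haj.le, by omega, rfl⟩
  have hMU : S (bM + 1) ∈ U := mem_UU.2 ⟨bM + 1, by omega, le_rfl, rfl⟩
  have hBU : B ⊆ U := fun z hz => by
    obtain ⟨t, h1, h2, h3⟩ := hB z hz
    exact mem_UU.2 ⟨t, h1.le, by omega, h3⟩
  have hKU : K ⊆ U := fun z hz => by
    obtain ⟨t, h1, h2, h3⟩ := hK z hz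
    exact mem_UU.2 ⟨t, h1, by omega, h3⟩
  refine ⟨qx U q0 (S a), ρ, hρ, ?_, ?_, ?_, ?_, hsup, hflow, hbd⟩
  · intro z
    unfold qx
    split_ifs
    · exact hq01 z
    · exact hq01 _
  · rw [qx_mem hMU, hqM]
  · rw [qx_mem hjU, hqj]
  · have h0 : qx U q0 (S a) (S 0) = q0 (S a) := qx_past ha (Nat.zero_le a)
    rw [hS.1] at h0
    rw [h0]
    have hL : (1 : ℝ) ≤ (b1 : ℝ) - a + 1 := by
      have : (a : ℝ) < b1 := by exact_mod_cast (by omega : a < b1)
      linarith
    refine pth_bound hPTH hpm hp hsum hG hS hGT hKU hSaK hqj hR hgap ?_ hL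
      (card_le (S := S) (by omega) hK) (card_le (S := S) (by omega) fun z hz => ?_)
    · refine (hmin (fun z => if z ∈ B ∪ UU S (b1 + 1) (bM + 1) then 1 else 0) ?_ ?_).trans ?_
      · rw [if_neg]
        intro hmem
        rcases Finset.mem_union.1 hmem with h | h
        · exact Finset.disjoint_left.1 hdis hSjK h
        · obtain ⟨r, hr1, _, hr⟩ := mem_UU.1 h
          exact hcut1 j r hjb1.le (by omega) hr.symm
      · rw [if_pos]
        exact Finset.mem_union_right _ (mem_UU.2 ⟨bM + 1, by omega, le_rfl, rfl⟩)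
      · refine En_ind c2 c1 hBU (c6 U) ?_
        intro z hz z' hz' h0 hzA hzA'
        rcases Finset.mem_union.1 hzA with h | h
        · exact h
        · exfalso
          have hadj : G z z' := by
            by_contra h
            exact h0 (cnd_of_not h)
          obtain ⟨r, hr1, hr2, hr⟩ := mem_UU.1 h
          obtain ⟨t, ht1, ht2, ht⟩ := mem_UU.1 hz'
          have htb : t ≤ b1 := by
            by_contra hcon
            exact hzA' (Finset.mem_union_right _ (mem_UU.2 ⟨t, by omega, ht2, ht⟩))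
          have h1 := cute hcut1 (trace_symm (hGT _ _ hadj)) ⟨t, htb, ht⟩ ⟨r, by omega, hr⟩
          apply hzA'
          rw [h1.1]
          exact Finset.mem_union_left _ hSb1
    · obtain ⟨t, h1, h2, h3⟩ := hB z hz
      exact ⟨t, h1.le, h2, h3⟩

end Pool.Agent.Helper91.BW

namespace Pool.Agent.Helper91.BW.STG2a

open Pool.Agent.Helper51.BW in
theorem main (hNET : S_NET) (hFLX : S_FLX) : S_STG2a := Pool.Agent.Helper91.BW.STG2a hNET hFLX

end Pool.Agent.Helper91.BW.STG2a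

namespace Pool.Agent.Helper91.BW.STG2b

open Pool.Agent.Helper51.BW in
theorem main (hNET : S_NET) (hFLX : S_FLX) (hPTH : S_PTH) : S_STG2b :=
  Pool.Agent.Helper91.BW.STG2b hNET hFLX hPTH

end Pool.Agent.Helper91.BW.STG2b
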