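import Pool.Agent.Helper91.BW.CND

/-!
# BW, parts STG1, STG2a, STG2b: certificates from the finite networks
-/

open MeasureTheory Filter Topology

namespace Pool.Agent.Helper91.BW

open Pool.Agent.Helper51.BW

variable {d : ℕ}

lemma cute {S : ℕ → V d} {b : ℕ} (hb : IsCut S b) {x y : V d} (hT : Trace S x y)
    (hx : ∃ t ≤ b, S t = x) (hy : ∃ t, b < t ∧ S t = y) : x = S b ∧ y = S (b + 1) := by
  obtain ⟨t, ht, htx⟩ := hx
  obtain ⟨t', ht', hty⟩ := hy
  obtain ⟨n, h | h⟩ := hT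
  · obtain ⟨h1, h2⟩ := h
    rcases lt_trichotomy n b with hn | hn | hn
    · exact absurd (h2.trans hty.symm) (hb _ _ (by omega) ht')
    · subst hn
      exact ⟨h1.symm, h2.symm⟩
    · exact absurd (htx.trans h1.symm) (hb _ _ ht hn)
  · obtain ⟨h1, h2⟩ := h
    rcases le_or_gt n b with hn | hn
    · exact absurd (h1.trans hty.symm) (hb _ _ hn ht')
    · exact absurd (htx.trans h2.symm) (hb _ _ ht (by omega))

lemma trace_symm {S : ℕ → V d} {x y : V d} (h : Trace S x y) : Trace S y x := by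
  obtain ⟨n, h | h⟩ := h
  · exact ⟨n, Or.inr h⟩
  · exact ⟨n, Or.inl h⟩

lemma trace_nbr {S : ℕ → V d} (hS : PathHyp S) {x y : V d} (h : Trace S x y) :
    ∃ e, y = x + dir e := by
  obtain ⟨n, h | h⟩ := h
  · obtain ⟨e, he⟩ := hS.2 n
    refine ⟨e, ?_⟩
    rw [← h.1, ← h.2, he]
  · obtain ⟨e, he⟩ := hS.2 n
    refine ⟨opp e, ?_⟩
    rw [← h.1, ← h.2, he, dir_opp]
    abel

lemma trace_mem {S : ℕ → V d} {x y : V d} (h : Trace S x y) : ∃ t, S t = y := by
  obtain ⟨n, h | h⟩ := h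
  · exact ⟨n + 1, h.2⟩
  · exact ⟨n, h.1⟩

/-- the points of the path between two times -/
def UU (S : ℕ → V d) (a n : ℕ) : Finset (V d) := (Finset.Icc a n).image S

lemma mem_UU {S : ℕ → V d} {a n : ℕ} {z : V d} : z ∈ UU S a n ↔ ∃ t, a ≤ t ∧ t ≤ n ∧ S t = z := by
  unfold UU
  rw [Finset.mem_image]
  constructor
  · rintro ⟨t, ht, h⟩
    rw [Finset.mem_Icc] at ht
    exact ⟨t, ht.1, ht.2, h⟩
  · rintro ⟨t, h1, h2, h⟩
    exact ⟨t, Finset.mem_Icc.2 ⟨h1, h2⟩, h⟩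

/-- extension of a function by the value at `w` -/
noncomputable def qx (U : Finset (V d)) (q0 : V d → ℝ) (w z : V d) : ℝ :=
  if z ∈ U then q0 z else q0 w

lemma qx_mem {U : Finset (V d)} {q0 : V d → ℝ} {w z : V d} (h : z ∈ U) : qx U q0 w z = q0 z :=
  if_pos h

lemma qx_not {U : Finset (V d)} {q0 : V d → ℝ} {w z : V d} (h : z ∉ U) : qx U q0 w z = q0 w :=
  if_neg h

lemma qx_self {U : Finset (V d)} {q0 : V d → ℝ} {w : V d} : qx U q0 w w = q0 w := by
  unfold qx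
  split_ifs <;> rfl

/-- the points before the cut time have the value of the cut point -/
lemma qx_past {S : ℕ → V d} {a n : ℕ} (ha : IsCut S a) {q0 : V d → ℝ} {t : ℕ} (ht : t ≤ a) :
    qx (UU S a n) q0 (S a) (S t) = q0 (S a) := by
  by_cases h : S t ∈ UU S a n
  · rw [qx_mem h]
    obtain ⟨r, hr1, _, hr⟩ := mem_UU.1 h
    rcases Nat.eq_or_lt_of_le hr1 with h1 | h1
    · rw [← hr, ← h1]
    · exact absurd hr.symm (ha _ _ ht h1)
  · rw [qx_not h]

lemma star {S : ℕ → V d} {a n : ℕ} (ha : IsCut S a) (q0 : V d → ℝ) {z y : V d}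
    (hz : ∃ t ≤ n, S t = z) (hy : ∃ t ≤ n, S t = y) (hT : Trace S z y) :
    (z ∈ UU S a n ∧ y ∈ UU S a n) ∨
      qx (UU S a n) q0 (S a) y = qx (UU S a n) q0 (S a) z := by
  obtain ⟨t, ht, htz⟩ := hz
  obtain ⟨r, hr, hry⟩ := hy
  rcases le_or_gt t a with h1 | h1 <;> rcases le_or_gt r a with h2 | h2
  · right
    rw [← htz, ← hry, qx_past ha h1, qx_past ha h2]
  · have h3 := cute ha hT ⟨t, h1, htz⟩ ⟨r, h2, hry⟩
    left
    rw [mem_UU, mem_UU]
    exact ⟨⟨a, le_rfl, by omega, h3.1.symm⟩, ⟨r, by omega, hr, hry⟩⟩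
  · have h3 := cute ha (trace_symm hT) ⟨r, h2, hry⟩ ⟨t, h1, htz⟩
    left
    rw [mem_UU, mem_UU]
    exact ⟨⟨t, by omega, ht, htz⟩, ⟨a, le_rfl, by omega, h3.1.symm⟩⟩
  · left
    rw [mem_UU, mem_UU]
    exact ⟨⟨t, by omega, ht, htz⟩, ⟨r, by omega, hr, hry⟩⟩

lemma sum_nbr {U : Finset (V d)} {z : V d} {h : V d → ℝ}
    (h1 : ∀ y, (∀ e, y ≠ z + dir e) → h y = 0) (h2 : ∀ e, z + dir e ∉ U → h (z + dir e) = 0) :
    ∑ e, h (z + dir e) = ∑ y ∈ U, h y := by
  classical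
  set I : Finset (V d) := Finset.univ.image fun e : D d => z + dir e with hI
  have e1 : ∑ e, h (z + dir e) = ∑ y ∈ I, h y := by
    rw [hI, Finset.sum_image]
    intro e _ e' _ hee
    exact dir_injective (add_left_cancel hee)
  have e2 : ∑ y ∈ I, h y = ∑ y ∈ I ∪ U, h y := by
    refine Finset.sum_subset Finset.subset_union_left fun y _ hy => h1 y fun e he => hy ?_
    rw [hI, Finset.mem_image]
    exact ⟨e, Finset.mem_univ _, he.symm⟩
  have e3 : ∑ y ∈ U, h y = ∑ y ∈ I ∪ U, h y := by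
    refine Finset.sum_subset Finset.subset_union_right fun y hy hyU => ?_
    rcases Finset.mem_union.1 hy with h3 | h3
    · rw [hI, Finset.mem_image] at h3
      obtain ⟨e, _, rfl⟩ := h3
      exact h2 e hyU
    · exact absurd h3 hyU
  rw [e1, e2, e3]

section

variable {p : D d → ℝ} {G : V d → V d → Prop} {pm : ℝ}

lemma superh_out (hpm : 0 < pm) (hp : ∀ e, pm ≤ p e) (hsum : ∑ e, p e = 1)
    (hG : ∀ x y, G x y → G y x) {q : V d → ℝ} {z : V d} (hq : 0 ≤ q z)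
    (hn : ∀ e, G z (z + dir e) → q (z + dir e) = q z) :
    ∑ e, Pool.Agent.Helper51.BW.trans p G z e * q (z + dir e) ≤ q z := by
  obtain ⟨-, -, -, -, -, -, -, -, -, -, h11⟩ := CND d p G pm hpm hp hsum hG
  have h1 : ∑ e, Pool.Agent.Helper51.BW.trans p G z e * q (z + dir e) =
      (∑ e, Pool.Agent.Helper51.BW.trans p G z e) * q z := by
    rw [Finset.sum_mul]
    refine Finset.sum_congr rfl fun e _ => ?_
    by_cases h : G z (z + dir e)
    · rw [hn e h]
    · have h2 : Pool.Agent.Helper51.BW.trans p G z e = 0 := by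
        unfold Pool.Agent.Helper51.BW.trans
        rw [if_neg h]
      rw [h2, zero_mul, zero_mul]
  rw [h1]
  exact mul_le_of_le_one_left hq (h11 z)

/-- total of the transition probabilities against a function, in terms of the flow -/
lemma flow_eq (hpm : 0 < pm) (hp : ∀ e, pm ≤ p e) (hsum : ∑ e, p e = 1)
    (hG : ∀ x y, G x y → G y x) {U : Finset (V d)} {q : V d → ℝ} {z : V d} (v : ℝ)
    (hn : ∀ e, G z (z + dir e) → z + dir e ∈ U ∨ q (z + dir e) = v) :
    (∑ e', cnd p G z (z + dir e')) *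
      (∑ e, Pool.Agent.Helper51.BW.trans p G z e * (q (z + dir e) - v)) =
      ∑ y ∈ U, cnd p G z y * (q y - v) := by
  obtain ⟨-, -, -, h4, h5, -, h7, -, -, -, -⟩ := CND d p G pm hpm hp hsum hG
  rw [← sum_nbr (z := z) (h := fun y => cnd p G z y * (q y - v)), Finset.mul_sum]
  · refine Finset.sum_congr rfl fun e _ => ?_
    rw [← h7 z e]
    ring
  · intro y hy
    rw [h5 z y hy, zero_mul]
  · intro e he
    by_cases h : G z (z + dir e)
    · rcases hn e h with h1 | h1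
      · exact absurd h1 he
      · rw [h1, sub_self, mul_zero]
    · rw [h4 z e h, zero_mul]

lemma superh_in (hpm : 0 < pm) (hp : ∀ e, pm ≤ p e) (hsum : ∑ e, p e = 1)
    (hG : ∀ x y, G x y → G y x) {U : Finset (V d)} {q : V d → ℝ} {z : V d} (hq : 0 ≤ q z)
    (hn : ∀ e, G z (z + dir e) → z + dir e ∈ U ∨ q (z + dir e) = q z)
    (hh : ∑ y ∈ U, cnd p G z y * (q y - q z) = 0) :
    ∑ e, Pool.Agent.Helper51.BW.trans p G z e * q (z + dir e) ≤ q z := by
  obtain ⟨-, -, -, -, -, -, -, h8, h9, -, h11⟩ := CND d p G pm hpm hp hsum hG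
  by_cases hex : ∃ e, G z (z + dir e)
  · obtain ⟨e0, he0⟩ := hex
    have hZ : 0 < ∑ e', cnd p G z (z + dir e') :=
      lt_of_lt_of_le (mul_pos hpm (Real.exp_pos _)) (h8 z e0 he0)
    have h1 := flow_eq hpm hp hsum hG (q z) hn
    rw [hh] at h1
    have h2 : ∑ e, Pool.Agent.Helper51.BW.trans p G z e * (q (z + dir e) - q z) = 0 := by
      rcases mul_eq_zero.1 h1 with h | h
      · exact absurd h hZ.ne'
      · exact h
    have h3 : ∑ e, Pool.Agent.Helper51.BW.trans p G z e * (q (z + dir e) - q z) =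
        ∑ e, Pool.Agent.Helper51.BW.trans p G z e * q (z + dir e) -
          (∑ e, Pool.Agent.Helper51.BW.trans p G z e) * q z := by
      rw [Finset.sum_mul, ← Finset.sum_sub_distrib]
      refine Finset.sum_congr rfl fun e _ => ?_
      ring
    have h4 : (∑ e, Pool.Agent.Helper51.BW.trans p G z e) * q z ≤ q z :=
      mul_le_of_le_one_left hq (h11 z)
    linarith
  · push Not at hex
    have h1 : ∑ e, Pool.Agent.Helper51.BW.trans p G z e * q (z + dir e) = 0 :=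
      Finset.sum_eq_zero fun e _ => by rw [h9 z hex e, zero_mul]
    rw [h1]
    exact hq

end

lemma En_le {α : Type} {U : Finset α} {c : α → α → ℝ} (hs : ∀ z z', c z z' = c z' z)
    (hc : ∀ z z', 0 ≤ c z z') (f g : α → ℝ)
    (h : ∀ z ∈ U, ∀ z' ∈ U, c z z' ≠ 0 → (f z' - f z) ^ 2 ≤ g z + g z') :
    En U c f ≤ ∑ z ∈ U, g z * ∑ z' ∈ U, c z z' := by
  unfold En
  have h1 : ∑ z ∈ U, ∑ z' ∈ U, c z z' * (f z' - f z) ^ 2 ≤
      ∑ z ∈ U, ∑ z' ∈ U, (c z z' * g z + c z z' * g z') := by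
    refine Finset.sum_le_sum fun z hz => Finset.sum_le_sum fun z' hz' => ?_
    by_cases h0 : c z z' = 0
    · rw [h0]
      simp
    · rw [← mul_add]
      exact mul_le_mul_of_nonneg_left (h z hz z' hz' h0) (hc z z')
  have h2 : ∑ z ∈ U, ∑ z' ∈ U, (c z z' * g z + c z z' * g z') =
      2 * ∑ z ∈ U, g z * ∑ z' ∈ U, c z z' := by
    simp_rw [Finset.sum_add_distrib]
    have h3 : ∑ z ∈ U, ∑ z' ∈ U, c z z' * g z' = ∑ z ∈ U, ∑ z' ∈ U, c z z' * g z := by
      rw [Finset.sum_comm]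
      refine Finset.sum_congr rfl fun z _ => Finset.sum_congr rfl fun z' _ => ?_
      rw [hs z' z]
    rw [h3, two_mul]
    congr 1 <;>
    · refine Finset.sum_congr rfl fun z _ => ?_
      rw [Finset.mul_sum]
      exact Finset.sum_congr rfl fun z' _ => mul_comm _ _
  linarith

/-- the bound of the value at the cut point -/
lemma pth_bound (hPTH : S_PTH) {p : D d → ℝ} {G : V d → V d → Prop} {pm Γ : ℝ} (hpm : 0 < pm)
    (hp : ∀ e, pm ≤ p e) (hsum : ∑ e, p e = 1) (hG : ∀ x y, G x y → G y x)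
    {S : ℕ → V d} (hS : PathHyp S) (hGT : ∀ x y, G x y → Trace S x y)
    {U K B : Finset (V d)} {q : V d → ℝ} {w x : V d} (hKU : K ⊆ U) (hw : w ∈ K)
    (hqx : q x = 0) (hR : Relation.ReflTransGen (fun z z' => z ∈ K ∧ z' ∈ K ∧ G z z') w x)
    (hgap : ∀ z ∈ K, ∀ z' ∈ B, ip (lhat p) z' + Γ ≤ ip (lhat p) z)
    (hEn : En U (cnd p G) q ≤ ∑ z ∈ B, Real.exp (ip (lhat p) z)) {L : ℝ} (hL : 1 ≤ L)
    (hK : (K.card : ℝ) ≤ L) (hB : (B.card : ℝ) ≤ L) :
    q w ≤ L ^ 2 * Real.sqrt (Real.exp (-Γ) / pm) := by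
  obtain ⟨h1, h2, h3, -, -, -, -, -, -, -, -⟩ := CND d p G pm hpm hp hsum hG
  obtain ⟨z0, hz0, hmin⟩ := Finset.exists_min_image K (fun z => ip (lhat p) z) ⟨w, hw⟩
  have hc0 : 0 < pm * Real.exp (ip (lhat p) z0) := mul_pos hpm (Real.exp_pos _)
  have hpth := hPTH (V d) U K (cnd p G) q (pm * Real.exp (ip (lhat p) z0)) w x h2 h1 hc0 hKU hw
    (by
      refine Relation.ReflTransGen.mono ?_ _ _ hR
      rintro z z' ⟨hz, hz', hzz⟩
      refine ⟨hz, hz', ?_⟩
      obtain ⟨e, rfl⟩ := trace_nbr hS (hGT z z' hzz)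
      rw [h3 z e hzz]
      have h5 : Real.exp (ip (lhat p) z0) ≤ Real.exp (ip (lhat p) z) :=
        Real.exp_le_exp.2 (hmin z hz)
      exact mul_le_mul (hp e) h5 (Real.exp_pos _).le (hpm.le.trans (hp e)))
  have hEn2 : En U (cnd p G) q ≤ L * Real.exp (ip (lhat p) z0 - Γ) := by
    refine hEn.trans ?_
    calc ∑ z ∈ B, Real.exp (ip (lhat p) z) ≤ ∑ _z ∈ B, Real.exp (ip (lhat p) z0 - Γ) := by
          refine Finset.sum_le_sum fun z hz => Real.exp_le_exp.2 ?_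
          have := hgap z0 hz0 z hz
          linarith
      _ = B.card * Real.exp (ip (lhat p) z0 - Γ) := by rw [Finset.sum_const, nsmul_eq_mul]
      _ ≤ L * Real.exp (ip (lhat p) z0 - Γ) := by gcongr
  have h6 : En U (cnd p G) q / (pm * Real.exp (ip (lhat p) z0)) ≤
      L * (Real.exp (-Γ) / pm) := by
    rw [div_le_iff₀ hc0]
    refine hEn2.trans (le_of_eq ?_)
    rw [sub_eq_add_neg, Real.exp_add]
    field_simp
  have h7 : Real.sqrt (En U (cnd p G) q / (pm * Real.exp (ip (lhat p) z0))) ≤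
      L * Real.sqrt (Real.exp (-Γ) / pm) := by
    refine (Real.sqrt_le_sqrt h6).trans ?_
    rw [Real.sqrt_mul (by linarith)]
    refine mul_le_mul_of_nonneg_right ?_ (Real.sqrt_nonneg _)
    rw [Real.sqrt_le_left (by linarith)]
    nlinarith
  rw [hqx, sub_zero] at hpth
  calc q w ≤ |q w| := le_abs_self _
    _ ≤ K.card * Real.sqrt (En U (cnd p G) q / (pm * Real.exp (ip (lhat p) z0))) := hpth
    _ ≤ L * (L * Real.sqrt (Real.exp (-Γ) / pm)) := by
        refine mul_le_mul hK h7 (Real.sqrt_nonneg _) (by linarith)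
    _ = L ^ 2 * Real.sqrt (Real.exp (-Γ) / pm) := by ring

lemma card_le {S : ℕ → V d} {a b : ℕ} (hab : a ≤ b) {K : Finset (V d)}
    (h : ∀ z ∈ K, ∃ t, a ≤ t ∧ t ≤ b ∧ S t = z) : (K.card : ℝ) ≤ (b : ℝ) - a + 1 := by
  have h1 : K ⊆ UU S a b := fun z hz => mem_UU.2 (h z hz)
  have h2 : K.card ≤ b + 1 - a := by
    refine (Finset.card_le_card h1).trans ?_
    unfold UU
    refine Finset.card_image_le.trans ?_
    rw [Nat.card_Icc]
  have h3 : (K.card : ℝ) ≤ ((b + 1 - a : ℕ) : ℝ) := by exact_mod_cast h2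
  rw [Nat.cast_sub (by omega)] at h3
  push_cast at h3
  linarith

end Pool.Agent.Helper91.BW
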